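import Pool.Agent.Q319.DR.MultP
import Pool.Agent.Q319.DR.LacP
import Pool.Agent.H426AM.Final
import Pool.Agent.Y854.GM.Cum

/-!
# The lower bound in the asymptotic formula for the variance, for the moduli at the multiples of almost all real numbers

Let `G(X, Q)` be the variance of the primes in the reduced residue classes modulo `Q`.
* For `0 < θ < 1` and `ε > 0` there is `c > 0` such that for all real `y ∈ [N ^ (1 - θ), 2 N ^ (1 - θ)]` outside a set
  of measure at most `N ^ (1 - θ - c)` ALL moduli `Q` in the windows of radius `N ^ c` around the multiples `k y`,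
  `k ≤ N ^ θ`, satisfy `G(X, Q) ≥ X (log Q - 1/2 log X - ε log X)` for ALL real `X ≥ Q`, with at most `N ^ (θ - c)`
  exceptional `k`.
* For every `ε > 0` there is `c > 0` such that for almost every real `α > 0` ALL moduli `Q` in the windows of radius
  `(b k) ^ c` around the numbers `α b k` have this property, for ALL large `k`; here `b` is an arbitrary sequence of
  integers with `b k ≥ k ^ (1 / c)`.

From Mathlib: `ArithmeticFunction.vonMangoldt`: the function `Λ`; `Nat.totient`: Euler's function `φ`; `volume`: the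
Lebesgue measure; `∀ᵐ α : ℝ`: for almost all real `α`; `∀ᶠ k in atTop`: for all large `k`.
The lower bound for almost all moduli is from the starting files (`H426AM.main`), as well as the count of the elements
of arbitrary sets of integers in intervals at multiples of real numbers (`Pool.Agent.H438R2.DL`).
-/

set_option autoImplicit false

namespace Pool.Agent.Results.MP_5dd4bb_nt.ModuliAtRealMultiples

open Finset MeasureTheory Filter

/-- `ψ(X; Q, A)`: the sum of `Λ(n)` over the `n ≤ X` with `n ≡ A mod Q`. -/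
noncomputable def psi (X : ℝ) (Q A : ℕ) : ℝ :=
  ∑ n ∈ (Icc 1 ⌊X⌋₊).filter (fun n => n ≡ A [MOD Q]), ArithmeticFunction.vonMangoldt n

/-- `G(X, Q)`: the sum of `(ψ(X; Q, A) - X/φ(Q))²` over the reduced residue classes `A` modulo `Q`. -/
noncomputable def G (X : ℝ) (Q : ℕ) : ℝ :=
  ∑ A ∈ (range Q).filter (fun A => A.Coprime Q), (psi X Q A - X / Nat.totient Q) ^ 2

/-- `Q ≥ 1` and `G(X, Q) ≥ X (log Q - 1/2 log X - ε log X)` for ALL real `X ≥ Q`. -/
def Good (ε : ℝ) (Q : ℕ) : Prop :=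
  1 ≤ Q ∧ ∀ X : ℝ, (Q : ℝ) ≤ X → X * (Real.log Q - 1 / 2 * Real.log X - ε * Real.log X) ≤ G X Q

open Classical in
/-- The number of the `k` with `1 ≤ k ≤ K` for which not all natural numbers `Q` at a distance of at most `w` from
`k y` have the property `P`. -/
noncomputable def exceptions (K : ℝ) (y w : ℝ) (P : ℕ → Prop) : ℕ :=
  ((Icc 1 ⌊K⌋₊).filter (fun k : ℕ => ∃ Q : ℕ, |(Q : ℝ) - k * y| ≤ w ∧ ¬ P Q)).card

/-- the moduli without this property -/
def Bad (ε : ℝ) : Set ℕ := {Q : ℕ | ¬ Good ε Q}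

open Classical in
lemma count (ε : ℝ) (hε : 0 < ε) : ∃ η : ℝ, 0 < η ∧ η ≤ 1 ∧ ∃ C : ℝ, ∀ X : ℕ,
    (((Ioc 0 X).filter (fun k => k ∈ Bad ε)).card : ℝ) ≤ C * (X : ℝ) ^ (1 - η) := by
  obtain ⟨κ, K₀, hκ, hK⟩ := H426AM.main ε hε
  obtain ⟨η, hη, C, hC⟩ := Pool.Agent.Y854.GM.cum_pow (Bad ε) hκ ⌈K₀⌉₊ (by
    intro K hK0
    refine le_trans ?_ (hK K (Nat.ceil_le.1 hK0))
    have hsub : (Ioc K (2 * K)).filter (fun k => k ∈ Bad ε) ⊆
        (Ioc K (2 * K)).filter (fun k : ℕ => ∃ X : ℝ, (k : ℝ) ≤ X ∧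
          G X k < X * (Real.log k - 1 / 2 * Real.log X - ε * Real.log X)) := by
      intro k hk
      rw [mem_filter] at hk ⊢
      refine ⟨hk.1, ?_⟩
      have hk1 := (mem_Ioc.1 hk.1).1
      have hk2 : ¬ Good ε k := hk.2
      unfold Good at hk2
      push Not at hk2
      obtain ⟨X, hX1, hX2⟩ := hk2 (by omega)
      exact ⟨X, hX1, hX2⟩
    exact_mod_cast card_le_card hsub)
  refine ⟨min η 1, lt_min hη one_pos, min_le_right _ _, |C|, fun X => ?_⟩
  rcases Nat.eq_zero_or_pos X with rfl | hX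
  · simp only [Ioc_self, filter_empty, card_empty, Nat.cast_zero]
    positivity
  · refine (hC X).trans ?_
    have hXp : (1 : ℝ) ≤ X := by exact_mod_cast hX
    calc C * (X : ℝ) ^ (1 - η) ≤ |C| * (X : ℝ) ^ (1 - η) :=
          mul_le_mul_of_nonneg_right (le_abs_self C) (by positivity)
      _ ≤ |C| * (X : ℝ) ^ (1 - min η 1) := by
          apply mul_le_mul_of_nonneg_left _ (abs_nonneg _)
          exact Real.rpow_le_rpow_of_exponent_le hXp (by have := min_le_left η 1; linarith)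

/-- * Let `0 < θ < 1` and `ε > 0`. There is `c > 0` such that for all large `N` there is a set `E` of real numbers of
  measure at most `N ^ (1 - θ - c)` with the following property. Let `y` be a real number with
  `N ^ (1 - θ) ≤ y ≤ 2 N ^ (1 - θ)` which does not belong to `E`. For all `k ≤ N ^ θ`, with at most `N ^ (θ - c)`
  exceptions, ALL natural numbers `Q` with `|Q - k y| ≤ N ^ c` satisfy
  `G(X, Q) ≥ X (log Q - 1/2 log X - ε log X)` for ALL real `X ≥ Q`.
* Let `ε > 0`. There is `c > 0` such that for every sequence `b` of natural numbers with `b k ≥ k ^ (1 / c)` for all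
  large `k` and for almost every real number `α > 0`: for all large `k` ALL natural numbers `Q` with
  `|Q - α b k| ≤ (b k) ^ c` satisfy `G(X, Q) ≥ X (log Q - 1/2 log X - ε log X)` for ALL real `X ≥ Q`. -/
theorem result :
    (∀ θ ε : ℝ, 0 < θ → θ < 1 → 0 < ε → ∃ c : ℝ, 0 < c ∧ ∃ N₀ : ℕ, ∀ N : ℕ, N₀ ≤ N →
      ∃ E : Set ℝ, MeasurableSet E ∧ volume E ≤ ENNReal.ofReal ((N : ℝ) ^ (1 - θ - c)) ∧
        ∀ y : ℝ, (N : ℝ) ^ (1 - θ) ≤ y → y ≤ 2 * (N : ℝ) ^ (1 - θ) → y ∉ E →
          (exceptions ((N : ℝ) ^ θ) y ((N : ℝ) ^ c) (Good ε) : ℝ) ≤ (N : ℝ) ^ (θ - c)) ∧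
    (∀ ε : ℝ, 0 < ε → ∃ c : ℝ, 0 < c ∧ ∀ b : ℕ → ℕ, (∀ᶠ k : ℕ in atTop, (k : ℝ) ^ (1 / c) ≤ b k) →
      ∀ᵐ α : ℝ, 0 < α → ∀ᶠ k : ℕ in atTop,
        ∀ Q : ℕ, |(Q : ℝ) - α * b k| ≤ (b k : ℝ) ^ c → Good ε Q) := by
  classical
  constructor
  · intro θ ε hθ hθ1 hε
    obtain ⟨η, hη, hη1, C, hC⟩ := count ε hε
    obtain ⟨c, hc, h⟩ := Pool.Agent.Q319.DR.mult_fewP θ hθ hθ1 η hη
    exact ⟨c, hc, h C (Bad ε) hC⟩
  · intro ε hε
    obtain ⟨η, hη, hη1, C, hC⟩ := count ε hε
    refine ⟨η / 4, by positivity, fun b hb => ?_⟩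
    have h := Pool.Agent.Q319.DR.lac_pow (Bad ε) η C hη1 hC (η / 4) 3 (by positivity) (by linarith)
      (by norm_num) b (by
        have e : (3 : ℝ) / (η - η / 4) = 1 / (η / 4) := by
          field_simp
          norm_num
        rw [e]
        exact hb)
    filter_upwards [h] with α hα hα0
    filter_upwards [hα hα0] with k hk Q hQ
    exact not_not.1 (hk Q hQ)

end Pool.Agent.Results.MP_5dd4bb_nt.ModuliAtRealMultiples
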