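import Pool.Agent.Q32.Ov.Mod2

/-! An upper bound for the variance of primes in progressions for one modulus per `x` on sparse windows, and
zeros of L-functions. -/

open Filter Finset

namespace Pool.Agent.Results.MP_5dd4bb_nt.OneModulusPerScale

/-- `ψ(x; Q, A)`. -/
noncomputable def psi (x : ℝ) (Q A : ℕ) : ℝ :=
  ∑ n ∈ (Icc 1 ⌊x⌋₊).filter (fun n : ℕ => n ≡ A [MOD Q]), ArithmeticFunction.vonMangoldt n

/-- `G(x, Q)`, the sum over the reduced residue classes `A` modulo `Q` of `(ψ(x; Q, A) - x/φ(Q))²`. -/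
noncomputable def G (x : ℝ) (Q : ℕ) : ℝ :=
  ∑ A ∈ (range Q).filter (fun A => A.Coprime Q), (psi x Q A - x / Q.totient) ^ 2

/-- First part: let `L(ρ, χ) = 0`, `ρ ≠ 1`, for a character `χ` modulo `q₀`, and `0 ≤ θ < Re ρ`, `0 < δ < 1`.
Then every large `X` has an `x` in `[X^(1-δ), X]` with `φ(Q) G(x, Q) > x^(2θ)` for ALL multiples `Q ≤ X` of `q₀`.
Second part: let `τ ≥ 0` and suppose that for every `ε > 0`, on the windows `[X^(1-δ), X]` of arbitrarily large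
`X` (`δ` may depend on `ε`), each `x` has at least ONE multiple `Q ≤ x^(τ+ε)` of `q₀` with
`G(x, Q) ≤ x^(1+ε)`. Then `L(s, χ) ≠ 0` for `Re s > (1+τ)/2`, for all characters `χ` modulo `q₀`.
(For `τ = 1/2`, the lower end of the range of the question, this is `Re s > 3/4`.) -/
theorem result :
    (∀ (q₀ : ℕ) [NeZero q₀] (χ : DirichletCharacter ℂ q₀) (ρ : ℂ), ρ ≠ 1 → DirichletCharacter.LFunction χ ρ = 0 →
      ∀ θ δ : ℝ, 0 ≤ θ → θ < ρ.re → 0 < δ → δ < 1 → ∃ X₀ : ℝ, ∀ X : ℝ, X₀ ≤ X → ∃ x : ℝ, X ^ (1 - δ) ≤ x ∧ x ≤ X ∧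
        ∀ Q : ℕ, q₀ ∣ Q → 1 ≤ Q → (Q : ℝ) ≤ X → x ^ (2 * θ) < Q.totient * G x Q) ∧
    (∀ (q₀ : ℕ) [NeZero q₀] (τ : ℝ), 0 ≤ τ →
      (∀ ε : ℝ, 0 < ε → ∃ δ : ℝ, 0 < δ ∧ δ < 1 ∧ ∀ X₀ : ℝ, ∃ X : ℝ, X₀ ≤ X ∧
        ∀ x : ℝ, X ^ (1 - δ) ≤ x → x ≤ X → ∃ Q : ℕ, q₀ ∣ Q ∧ 1 ≤ Q ∧ (Q : ℝ) ≤ x ^ (τ + ε) ∧ G x Q ≤ x ^ (1 + ε)) →
      ∀ (χ : DirichletCharacter ℂ q₀) (s : ℂ), (1 + τ) / 2 < s.re → (s ≠ 1 ∨ χ ≠ 1) →
        DirichletCharacter.LFunction χ s ≠ 0) := by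
  refine ⟨?_, ?_⟩
  · intro q₀ _ χ ρ hρ h0 θ δ hθ0 hθ hδ hδ1
    obtain ⟨X₀, hX₀⟩ := eventually_atTop.1 ((Pool.Agent.Q32.Ov.mod_window χ hρ h0 hθ0 hθ hδ hδ1).and
      (eventually_ge_atTop 1))
    refine ⟨X₀, fun X hX => ?_⟩
    obtain ⟨⟨x, ⟨hx1, hx2⟩, hx3⟩, hX1⟩ := hX₀ X hX
    refine ⟨x, hx1, hx2, fun Q hQ0 hQ hQX => ?_⟩
    have hx0 : 1 ≤ x := (Real.one_le_rpow hX1 (by linarith)).trans hx1
    have h1 := hx3 Q hQ0 hQ hQX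
    have h2 := Pool.Agent.Q32.Ov.D_sq x Q
    have h3 : x ^ (2 * θ) < Pool.Agent.Q32.Ov.D x Q ^ 2 := by
      have h4 : x ^ (2 * θ) = (x ^ θ) ^ 2 := by
        rw [← Real.rpow_natCast (x ^ θ), ← Real.rpow_mul (by linarith)]
        congr 1
        push_cast
        ring
      rw [h4]
      exact pow_lt_pow_left₀ h1 (Real.rpow_nonneg (by linarith) _) (by norm_num)
    exact h3.trans_le h2
  · intro q₀ _ τ hτ h χ s hs hs1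
    exact Pool.Agent.Q32.Ov.free_of_var hτ h χ hs hs1

end Pool.Agent.Results.MP_5dd4bb_nt.OneModulusPerScale
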