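import Pool.Agent.Q116.RP.Core
import Pool.Agent.H426AM.Final
import Pool.Agent.Y854.GM.Cum

/-! # The lower bound in the asymptotic formula for the variance, for the moduli near the powers of real numbers

Let `G(X, Q)` be the sum of `(ψ(X; Q, A) - X/φ(Q))²` over the reduced residue classes `A` modulo `Q`.  For every
`ε > 0` there is `κ > 0` such that for almost every real `α > 1` and all large `k`, ALL moduli `Q` with
`|Q - α ^ k| ≤ α ^ (η k)`, `η < κ`, satisfy `G(X, Q) ≥ X (log Q - 1/2 log X - ε log X)` for ALL real `X ≥ Q`;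
the exceptional set of real numbers `α` has Hausdorff dimension at most `(1 - κ) / (1 - η)`.  The same for
`c α ^ (r k)` with real exponents `r k` which grow faster than logarithmically. -/

set_option autoImplicit false

namespace Pool.Agent.Results.MP_5dd4bb_nt.RealPowers

open Finset MeasureTheory Filter
open Pool.Agent.Q116.RP (RealPowers realPowers_of)

/-- `ψ(X; Q, A)`: the sum of `Λ(n)` over the `n ≤ X` with `n ≡ A mod Q`. -/
noncomputable def psi (X : ℝ) (Q A : ℕ) : ℝ :=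
  ∑ n ∈ (Icc 1 ⌊X⌋₊).filter (fun n => n ≡ A [MOD Q]), ArithmeticFunction.vonMangoldt n

/-- `G(X, Q)`: the sum of `(ψ(X; Q, A) - X/φ(Q))²` over the reduced residue classes `A` modulo `Q`. -/
noncomputable def G (X : ℝ) (Q : ℕ) : ℝ :=
  ∑ A ∈ (range Q).filter (fun A => A.Coprime Q), (psi X Q A - X / Nat.totient Q) ^ 2

/-- `Q ≥ 1` and `G(X, Q) ≥ X (log Q - 1/2 log X - ε log X)` for ALL real `X ≥ Q`. -/
def Good (ε : ℝ) (Q : ℕ) : Prop :=
  1 ≤ Q ∧ ∀ X : ℝ, (Q : ℝ) ≤ X → X * (Real.log Q - 1 / 2 * Real.log X - ε * Real.log X) ≤ G X Q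

open Classical in
/-- the moduli without this property -/
def Bad (ε : ℝ) : Set ℕ := {Q : ℕ | ¬ Good ε Q}

open Classical in
lemma count (ε : ℝ) (hε : 0 < ε) : ∃ η : ℝ, 0 < η ∧ η ≤ 1 ∧ ∃ C : ℝ, ∀ X : ℕ,
    (((Ioc 0 X).filter (fun k => k ∈ Bad ε)).card : ℝ) ≤ C * (X : ℝ) ^ (1 - η) := by
  obtain ⟨κ, K₀, hκ, hK⟩ := H426AM.main ε hε
  obtain ⟨η, hη, C, hC⟩ := Pool.Agent.Y854.GM.cum_pow (Bad ε) hκ ⌈K₀⌉₊ (by
    intro K hK0
    refine le_trans ?_ (hK K (Nat.ceil_le.1 hK0))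
    have hsub : (Ioc K (2 * K)).filter (fun k => k ∈ Bad ε) ⊆
        (Ioc K (2 * K)).filter (fun k : ℕ => ∃ X : ℝ, (k : ℝ) ≤ X ∧
          G X k < X * (Real.log k - 1 / 2 * Real.log X - ε * Real.log X)) := by
      intro k hk
      rw [mem_filter] at hk ⊢
      refine ⟨hk.1, ?_⟩
      have hk1 := (mem_Ioc.1 hk.1).1
      have hk2 : ¬ Good ε k := hk.2
      unfold Good at hk2
      push Not at hk2
      obtain ⟨X, hX1, hX2⟩ := hk2 (by omega)
      exact ⟨X, hX1, hX2⟩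
    exact_mod_cast card_le_card hsub)
  refine ⟨min η 1, lt_min hη one_pos, min_le_right _ _, |C|, fun X => ?_⟩
  rcases Nat.eq_zero_or_pos X with rfl | hX
  · simp only [Ioc_self, filter_empty, card_empty, Nat.cast_zero]
    positivity
  · refine (hC X).trans ?_
    have hXp : (1 : ℝ) ≤ X := by exact_mod_cast hX
    calc C * (X : ℝ) ^ (1 - η) ≤ |C| * (X : ℝ) ^ (1 - η) :=
          mul_le_mul_of_nonneg_right (le_abs_self C) (by positivity)
      _ ≤ |C| * (X : ℝ) ^ (1 - min η 1) := by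
          apply mul_le_mul_of_nonneg_left _ (abs_nonneg _)
          exact Real.rpow_le_rpow_of_exponent_le hXp (by have := min_le_left η 1; linarith)

/-- **Theorem.** Let `ε > 0`. There is `κ > 0` such that, for all moduli `Q` near the powers of real numbers in
the sense of `RealPowers (1 - κ)`, `G(X, Q) ≥ X (log Q - 1/2 log X - ε log X)` for ALL real `X ≥ Q`. -/
theorem result (ε : ℝ) (hε : 0 < ε) :
    ∃ κ : ℝ, 0 < κ ∧ κ ≤ 1 ∧ RealPowers (1 - κ) (Good ε) := by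
  classical
  obtain ⟨κ, hκ, hκ1, C, hC⟩ := count ε hε
  refine ⟨κ, hκ, hκ1, realPowers_of (B := fun q => q ∈ Bad ε) (by linarith) ?_ (fun n _ h => not_not.1 h)⟩
  intro t ht
  refine ⟨|C|, fun N hN => ?_⟩
  have hN1 : (1 : ℝ) ≤ N := by exact_mod_cast hN
  have hC0 : 0 ≤ |C| := abs_nonneg C
  refine le_trans (Nat.cast_le.2 (Pool.Agent.Q21.DW.card_mono (t := (Ioc 0 N)) ?_)) ((hC N).trans ?_)
  · intro m hm h5
    rw [mem_Icc] at hm
    exact ⟨mem_Ioc.2 ⟨by omega, hm.2⟩, h5⟩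
  · calc C * (N : ℝ) ^ (1 - κ) ≤ |C| * (N : ℝ) ^ (1 - κ) :=
          mul_le_mul_of_nonneg_right (le_abs_self C) (by positivity)
      _ ≤ |C| * (N : ℝ) ^ t :=
          mul_le_mul_of_nonneg_left (Real.rpow_le_rpow_of_exponent_le hN1 ht.le) hC0

end Pool.Agent.Results.MP_5dd4bb_nt.RealPowers
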